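import Mathlib

/-!
# 2-near perfect numbers of the form `2^k * p^m`: the key Diophantine lemmas

With `N = 2^(k+1)`, `S = 1 + p + ... + p^(m-1)` the defining equation reads
`N * S = S + p^m + x * p^b + y * p^d`, where `x, y < N` are powers of two.
-/

namespace MP24a6f7

/-- size bounds in the case where the exponent of `p` in the smaller-power-of-two term is `< m`. -/
theorem stepA {p t s x y q P R : ℤ} (hp : 3 ≤ p) (ht : 1 ≤ t) (hs : 0 ≤ s)
    (hq : 1 ≤ q) (hy : 1 ≤ y) (hx1 : 1 ≤ x) (hx : 2 * x ≤ q + p)
    (hP0 : 1 ≤ P) (hR0 : 1 ≤ R) (hP : P ≤ t * p ^ 2) (hR : R ≤ t * p ^ 2)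
    (hxy : 2 * y ≤ x ∨ (x = y ∧ x ≠ p ∧ P + R ≤ t * p ^ 2 + t * p))
    (h : q * (t * p ^ 2 + t * p + t + s) = 1 + x * P + y * R) :
    y < p ∧ x < p + y ∧ q < p + 2 * y := by
  have htp : 3 ≤ t * p := by nlinarith
  have htp2 : 9 ≤ t * p ^ 2 := by nlinarith
  rcases hxy with h2 | ⟨hxy, hxp, hPR⟩
  · have hq2 : q < p + 2 * y := by
      by_contra hcon
      push Not at hcon
      have h1 : 2 * (x * P) ≤ (q + p) * P := by nlinarith
      have h2' : (q + p) * P ≤ (q + p) * (t * p ^ 2) :=
        mul_le_mul_of_nonneg_left hP (by linarith)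
      have h3 : y * R ≤ y * (t * p ^ 2) := mul_le_mul_of_nonneg_left hR (by linarith)
      have h4 : q * (t * p ^ 2 + 2 * (t * p) + 2 * t + 2 * s) ≤ 2 + (p + 2 * y) * (t * p ^ 2) := by
        nlinarith
      have h5 : (p + 2 * y) * (t * p ^ 2 + 2 * (t * p) + 2 * t + 2 * s)
          ≤ q * (t * p ^ 2 + 2 * (t * p) + 2 * t + 2 * s) :=
        mul_le_mul_of_nonneg_right hcon (by nlinarith)
      nlinarith
    refine ⟨by linarith, by linarith, hq2⟩
  · subst hxy
    have hq2 : q ≤ x := by
      by_contra hcon
      push Not at hcon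
      have h1 : x * (P + R) ≤ x * (t * p ^ 2 + t * p) := mul_le_mul_of_nonneg_left hPR (by linarith)
      have h5 : (x + 1) * (t * p ^ 2 + t * p + t + s) ≤ q * (t * p ^ 2 + t * p + t + s) :=
        mul_le_mul_of_nonneg_right (by linarith) (by nlinarith)
      nlinarith
    have hxp' : x < p := lt_of_le_of_ne (by linarith) hxp
    refine ⟨hxp', by linarith, by linarith⟩

/-- No solutions for `m ≥ 4` when the exponent `d` is `< m`. -/
theorem D0_ge4 {p t s x y q P R : ℤ} (hp : 3 ≤ p) (ht : p ≤ t) (hs : 1 ≤ s)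
    (hst : (p - 1) * s = t - 1)
    (hq : 1 ≤ q) (hy : 1 ≤ y) (hyx : y ≤ x) (hx : 2 * x ≤ q + p)
    (hP : P = t * p ^ 2 ∨ P = t * p ∨ (1 ≤ P ∧ P ≤ t))
    (hR : R = t * p ^ 2 ∨ R = t * p ∨ (1 ≤ R ∧ R ≤ t))
    (hxy : 2 * y ≤ x ∨ (x = y ∧ x ≠ p ∧ P + R ≤ t * p ^ 2 + t * p))
    (hty : p ^ 2 ≤ t ∨ y = 1)
    (h : q * (t * p ^ 2 + t * p + t + s) = 1 + x * P + y * R) : False := by
  have htp : 9 ≤ t * p := by nlinarith
  have htp2 : t * p * 3 ≤ t * p ^ 2 := by nlinarith
  have htt : t * 3 ≤ t * p := by nlinarith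
  have hPb : 1 ≤ P ∧ P ≤ t * p ^ 2 := by
    rcases hP with h | h | h
    · subst h; constructor <;> nlinarith
    · subst h; constructor <;> nlinarith
    · constructor <;> nlinarith [h.1, h.2]
  have hRb : 1 ≤ R ∧ R ≤ t * p ^ 2 := by
    rcases hR with h | h | h
    · subst h; constructor <;> nlinarith
    · subst h; constructor <;> nlinarith
    · constructor <;> nlinarith [h.1, h.2]
  obtain ⟨hyp, hxpy, hqpy⟩ := stepA hp (by linarith) (by linarith) hq hy (by linarith) hx hPb.1 hRb.1
    hPb.2 hRb.2 hxy h
  have hK : q + (p - 1) * (1 + x * P + y * R) = q * (t * p ^ 3) := by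
    rw [← h]
    have : (p - 1) * (q * (t * p ^ 2 + t * p + t + s))
      = q * ((p - 1) * (t * p ^ 2 + t * p + t) + (p - 1) * s) := by ring
    rw [this, hst]; ring
  by_cases hPU : P ≤ t * p
  · by_cases hRU : R ≤ t * p
    · -- case A
      have h1 : 2 * (x * P) ≤ (q + p) * P := by nlinarith [hPb.1]
      have h2' : (q + p) * P ≤ (q + p) * (t * p) :=
        mul_le_mul_of_nonneg_left hPU (by linarith)
      have h3 : y * R ≤ y * (t * p) := mul_le_mul_of_nonneg_left hRU (by linarith)
      have h4 : q * (2 * (t * p ^ 2) + t * p + 2 * t + 2 * s) ≤ 2 + (p + 2 * y) * (t * p) := by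
        nlinarith
      rcases eq_or_lt_of_le hq with hq1 | hq2
      · subst hq1
        have h6 : 2 * y * (t * p) ≤ (p + 1) * (t * p) :=
          mul_le_mul_of_nonneg_right (by linarith) (by linarith)
        nlinarith
      · have h5 : 2 * (2 * (t * p ^ 2) + t * p + 2 * t + 2 * s)
            ≤ q * (2 * (t * p ^ 2) + t * p + 2 * t + 2 * s) :=
          mul_le_mul_of_nonneg_right (by linarith) (by nlinarith)
        have h6 : (p + 2 * y) * (t * p) ≤ (3 * p) * (t * p) :=
          mul_le_mul_of_nonneg_right (by linarith) (by linarith)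
        nlinarith
    · -- case C : R = T
      have hRT : R = t * p ^ 2 := by
        rcases hR with h | h | h
        · exact h
        · exact absurd h.le hRU
        · exact absurd (by nlinarith [h.2]) hRU
      subst hRT
      have hqy : q ≤ y := by
        by_contra hcon
        push Not at hcon
        have h1 : x * P ≤ (p + y - 1) * (t * p) :=
          mul_le_mul (by linarith) hPU (by linarith [hPb.1]) (by linarith)
        have h5 : (y + 1) * (t * p ^ 2 + t * p + t + s) ≤ q * (t * p ^ 2 + t * p + t + s) :=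
          mul_le_mul_of_nonneg_right (by linarith) (by nlinarith)
        nlinarith
      have hxp : x < p := by linarith
      rcases hP with h' | h' | h'
      · exact absurd hPU (by rw [h']; push Not; nlinarith)
      · -- P = U
        have hd : t * p ∣ q + (p - 1) := by
          have : q + (p - 1) = q * (t * p ^ 3) - (p - 1) * (x * P + y * (t * p ^ 2)) := by
            rw [← hK]; ring
          rw [this, h']
          exact Dvd.intro (q * p ^ 2 - (p - 1) * (x + y * p)) (by ring)
        have := Int.le_of_dvd (by linarith) hd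
        nlinarith
      · have hd : t * p ^ 2 ∣ q + (p - 1) * (1 + x * P) := by
          have : q + (p - 1) * (1 + x * P) = q * (t * p ^ 3) - (p - 1) * (y * (t * p ^ 2)) := by
            rw [← hK]; ring
          rw [this]
          exact Dvd.intro (q * p - (p - 1) * y) (by ring)
        have hle := Int.le_of_dvd (by nlinarith [hPb.1, mul_pos (show 0 < x by linarith) (show 0 < P by linarith [hPb.1])]) hd
        have h1 : x * P ≤ (p - 1) * t :=
          mul_le_mul (by linarith) h'.2 (by linarith [hPb.1]) (by linarith)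
        have h2 : (p - 1) * (1 + x * P) ≤ (p - 1) * (1 + (p - 1) * t) :=
          mul_le_mul_of_nonneg_left (by linarith) (by linarith)
        nlinarith
  · -- case B : P = T
    have hPT : P = t * p ^ 2 := by
      rcases hP with h | h | h
      · exact h
      · exact absurd h.le hPU
      · exact absurd (by nlinarith [h.2]) hPU
    subst hPT
    have hB2 : t * p ∣ R → False := by
      rintro ⟨r, hr⟩
      have hd : t * p ∣ q + (p - 1) := by
        have : q + (p - 1) = q * (t * p ^ 3) - (p - 1) * (x * (t * p ^ 2) + y * R) := by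
          rw [← hK]; ring
        rw [this, hr]
        exact Dvd.intro (q * p ^ 2 - (p - 1) * (x * p + y * r)) (by ring)
      have hle := Int.le_of_dvd (by linarith) hd
      rcases hty with h2 | h2
      · nlinarith
      · subst h2
        nlinarith
    rcases hR with h' | h' | h'
    · exact hB2 (by rw [h']; exact Dvd.intro p (by ring))
    · exact hB2 (by rw [h'])
    · have hd : t * p ^ 2 ∣ q + (p - 1) * (1 + y * R) := by
        have : q + (p - 1) * (1 + y * R) = q * (t * p ^ 3) - (p - 1) * (x * (t * p ^ 2)) := by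
          rw [← hK]; ring
        rw [this]
        exact Dvd.intro (q * p - (p - 1) * x) (by ring)
      have hle := Int.le_of_dvd (by nlinarith [hRb.1, mul_pos (show 0 < y by linarith) (show 0 < R by linarith [hRb.1])]) hd
      have h1 : y * R ≤ (p - 1) * t :=
        mul_le_mul (by linarith) h'.2 (by linarith [hRb.1]) (by linarith)
      have h2 : (p - 1) * (1 + y * R) ≤ (p - 1) * (1 + (p - 1) * t) :=
        mul_le_mul_of_nonneg_left (by linarith) (by linarith)
      nlinarith

end MP24a6f7
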