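import Pool.Agent.Helper664_NT.Near

namespace MP24a6f7

/-- `m = 3`, the exponent `d` is `< 3`. -/
theorem D0_three {p x y q P R : ℤ} (hp : 3 ≤ p) (hodd : ¬ 2 ∣ p)
    (hq : 1 ≤ q) (hy : 1 ≤ y) (hyx : y ≤ x) (hx : 2 * x ≤ q + p)
    (hP : P = 1 ∨ P = p ∨ P = p ^ 2) (hR : R = 1 ∨ R = p ∨ R = p ^ 2)
    (hxy : 2 * y ≤ x ∨ (x = y ∧ x ≠ p ∧ (P ≠ R ∨ P = 1)))
    (hpar : P ≠ 1 → 2 ∣ q + p)
    (h : q * (p ^ 2 + p + 1) = 1 + x * P + y * R) : q = 1 ∧ P ≠ 1 := by
  have hPb : 1 ≤ P ∧ P ≤ 1 * p ^ 2 := by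
    rcases hP with h | h | h <;> subst h <;> constructor <;> nlinarith
  have hRb : 1 ≤ R ∧ R ≤ 1 * p ^ 2 := by
    rcases hR with h | h | h <;> subst h <;> constructor <;> nlinarith
  have hxy' : 2 * y ≤ x ∨ (x = y ∧ x ≠ p ∧ P + R ≤ 1 * p ^ 2 + 1 * p) := by
    rcases hxy with h | ⟨h1, h2, h3⟩
    · exact Or.inl h
    · refine Or.inr ⟨h1, h2, ?_⟩
      rcases h3 with h3 | h3
      · rcases hP with h | h | h <;> rcases hR with h' | h' | h' <;> subst h <;> subst h' <;>
          first | exact absurd rfl h3 | nlinarith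
      · subst h3
        rcases hR with h' | h' | h' <;> subst h' <;> nlinarith
  obtain ⟨hyp, hxpy, hqpy⟩ := stepA (t := 1) (s := 0) hp le_rfl le_rfl hq hy (by linarith) hx
    hPb.1 hRb.1 hPb.2 hRb.2 hxy' (by rw [← h]; ring)
  have hK : q + (p - 1) * (1 + x * P + y * R) = q * p ^ 3 := by
    rw [← h]; ring
  -- the cases with both exponents positive
  have key : ∀ u v : ℤ, P = p * u → R = p * v → (u = 1 ∨ u = p) → (v = 1 ∨ v = p) →
      q = 1 ∧ P ≠ 1 := by
    intro u v hu hv hu1 hv1
    have hP1 : P ≠ 1 := by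
      rcases hu1 with h1 | h1 <;> subst h1 <;> nlinarith
    have hpar' := hpar hP1
    have hd : q - 1 = p * (q * p ^ 2 - (p - 1) * (x * u + y * v) - 1) := by
      have : q - 1 = (q * p ^ 3 - (p - 1) * (x * P + y * R)) - p := by rw [← hK]; ring
      rw [this, hu, hv]; ring
    obtain ⟨j, hj⟩ : ∃ j : ℤ, q - 1 = p * j := ⟨_, hd⟩
    have hj0 : 0 ≤ j := by
      by_contra hc
      push Not at hc
      nlinarith
    have hj2 : j ≤ 2 := by
      by_contra hc
      push Not at hc
      nlinarith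
    have hq' : q = 1 + p * j := by linarith
    interval_cases j
    · exact ⟨by linarith, hP1⟩
    · exfalso
      have h2 : q = 1 + p := by linarith
      rw [h2] at hpar'
      omega
    · exfalso
      have h2 : q = 1 + 2 * p := by linarith
      rw [h2, hu, hv] at h
      have h3 : 2 * p ^ 2 + 3 * p + 3 = x * u + y * v := by
        have : p * (2 * p ^ 2 + 3 * p + 3) = p * (x * u + y * v) := by nlinarith
        exact mul_left_cancel₀ (by linarith) this
      rcases hu1 with h1 | h1 <;> rcases hv1 with h4 | h4 <;> rw [h1, h4] at h3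
      · nlinarith
      · nlinarith
      · nlinarith
      · have h5 : p * (x + y - 2 * p - 3) = 3 := by nlinarith
        have h6 : 1 ≤ x + y - 2 * p - 3 := by
          by_contra hc
          push Not at hc
          nlinarith
        nlinarith
  rcases hP with h1 | h1 | h1 <;> rcases hR with h2 | h2 | h2
  · exfalso; subst h1; subst h2; nlinarith
  · exfalso; subst h1; subst h2; nlinarith
  · exfalso; subst h1; subst h2
    obtain ⟨j, hj⟩ : ∃ j : ℤ, j = q * p - (p - 1) * y := ⟨_, rfl⟩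
    have e1 : q + (p - 1) * (1 + x) = p ^ 2 * j := by
      rw [hj]; nlinarith
    have e2 : y = j * (p ^ 2 + p + 1) - (1 + x) * p := by
      have : q = p ^ 2 * j - (p - 1) * (1 + x) := by linarith
      rw [this] at h
      have h7 : p ^ 2 * (j * (p ^ 2 + p + 1) - (1 + x) * p) = p ^ 2 * y := by nlinarith
      exact (mul_left_cancel₀ (by positivity) h7).symm
    have hj1 : 1 ≤ j := by
      by_contra hc
      push Not at hc
      nlinarith
    have hj2 : j ≤ 1 := by
      by_contra hc
      push Not at hc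
      nlinarith
    have hj3 : j = 1 := le_antisymm hj2 hj1
    subst hj3
    have h8 : p < 1 + x := by
      by_contra hc
      push Not at hc
      nlinarith
    nlinarith
  · exfalso; rw [h1, h2] at h
    have hq1 : q = 1 := by
      have : q < 2 := by
        by_contra hc
        push Not at hc
        have h5 : x * p ≤ (2 * p - 2) * p := mul_le_mul_of_nonneg_right (by linarith) (by linarith)
        nlinarith
      linarith
    rw [hq1] at h
    have h3 : y = p * (p + 1 - x) := by linarith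
    have h4 : 1 ≤ p + 1 - x := by
      by_contra hc
      push Not at hc
      nlinarith
    nlinarith
  · exact key 1 1 (by rw [h1]; ring) (by rw [h2]; ring) (Or.inl rfl) (Or.inl rfl)
  · exact key 1 p (by rw [h1]; ring) (by rw [h2]; ring) (Or.inl rfl) (Or.inr rfl)
  · exfalso; subst h1; subst h2
    obtain ⟨j, hj⟩ : ∃ j : ℤ, j = q * p - (p - 1) * x := ⟨_, rfl⟩
    have e1 : q + (p - 1) * (1 + y) = p ^ 2 * j := by
      rw [hj]; nlinarith
    have e2 : x = j * (p ^ 2 + p + 1) - (1 + y) * p := by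
      have : q = p ^ 2 * j - (p - 1) * (1 + y) := by linarith
      rw [this] at h
      have h7 : p ^ 2 * (j * (p ^ 2 + p + 1) - (1 + y) * p) = p ^ 2 * x := by nlinarith
      exact (mul_left_cancel₀ (by positivity) h7).symm
    have hj1 : 1 ≤ j := by
      by_contra hc
      push Not at hc
      nlinarith
    nlinarith
  · exact key p 1 (by rw [h1]; ring) (by rw [h2]; ring) (Or.inr rfl) (Or.inl rfl)
  · exact key p p (by rw [h1]; ring) (by rw [h2]; ring) (Or.inr rfl) (Or.inr rfl)

/-- `m ≥ 4`, the exponent `d` equals `m`. -/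
theorem D1_ge4 {p t s x y q P : ℤ} (hp : 3 ≤ p) (ht : p ≤ t) (hs : 0 ≤ s)
    (hq : 1 ≤ q) (hy : 1 ≤ y) (hx1 : 1 ≤ x) (hx : 2 * x ≤ q + p + y * (p - 1))
    (hP : P = t * p ^ 2 ∨ (1 ≤ P ∧ P ≤ t * p))
    (hPd : P ∣ q + (p - 1) * (1 + y))
    (h1 : 2 * y * (p - 1) + 2 * p - 1 < t * p ^ 2)
    (h2 : 8 * (1 + y) + ((y + 1) * (2 * p - 1)) ^ 2 + 2 * ((y + 1) * (2 * p - 1))
      < 8 * (t * p ^ 2 + t * p + t + s))
    (h : q * (t * p ^ 2 + t * p + t + s) = 1 + y + x * P) : False := by
  have htp : 9 ≤ t * p := by nlinarith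
  have htp2 : t * p * 3 ≤ t * p ^ 2 := by nlinarith
  have htt : t * 3 ≤ t * p := by nlinarith
  have hyp : 0 ≤ y * (p - 1) := by nlinarith
  rcases hP with hP | ⟨hP1, hP2⟩
  · subst hP
    have hle := Int.le_of_dvd (by nlinarith) hPd
    have hq2 : q ≤ p + y * (p - 1) := by
      by_contra hcon
      push Not at hcon
      have h3 : 2 * (x * (t * p ^ 2)) ≤ (q + p + y * (p - 1)) * (t * p ^ 2) := by nlinarith
      have h4 : q * (t * p ^ 2 + 2 * (t * p) + 2 * t + 2 * s)
          ≤ 2 * (1 + y) + (p + y * (p - 1)) * (t * p ^ 2) := by nlinarith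
      have h5 : (p + y * (p - 1) + 1) * (t * p ^ 2 + 2 * (t * p) + 2 * t + 2 * s)
          ≤ q * (t * p ^ 2 + 2 * (t * p) + 2 * t + 2 * s) :=
        mul_le_mul_of_nonneg_right (by linarith) (by nlinarith)
      nlinarith
    nlinarith
  · have hle := Int.le_of_dvd (by nlinarith) hPd
    have hq2 : 2 * q ≤ y + 1 := by
      by_contra hcon
      push Not at hcon
      have h3 : 2 * (x * P) ≤ (q + p + y * (p - 1)) * P := by
        have := mul_le_mul_of_nonneg_right hx (show 0 ≤ P by linarith)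
        linarith
      have h3' : (q + p + y * (p - 1)) * P ≤ (q + p + y * (p - 1)) * (t * p) :=
        mul_le_mul_of_nonneg_left hP2 (by linarith)
      have h4 : q * (2 * (t * p ^ 2) + t * p + 2 * t + 2 * s)
          ≤ 2 * (1 + y) + (p + y * (p - 1)) * (t * p) := by linarith
      have h5 : (y + 2) * (2 * (t * p ^ 2) + t * p + 2 * t + 2 * s)
          ≤ (2 * q) * (2 * (t * p ^ 2) + t * p + 2 * t + 2 * s) :=
        mul_le_mul_of_nonneg_right (by linarith) (by linarith)
      have h6 : (p + y * (p - 1)) * (t * p) = t * p ^ 2 + y * (t * p ^ 2) - y * (t * p) := by ring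
      have h7 : (y + 2) * (2 * (t * p ^ 2) + t * p + 2 * t + 2 * s)
          ≤ 4 * (1 + y) + 2 * (t * p ^ 2 + y * (t * p ^ 2) - y * (t * p)) := by
        rw [← h6]; linarith
      have h8 : 0 ≤ y * (t * p) := by positivity
      have h9 : 0 ≤ y * s := by positivity
      have h10 : y * 3 ≤ y * t := mul_le_mul_of_nonneg_left (by linarith) (by linarith)
      linarith
    obtain ⟨Z, hZ⟩ : ∃ Z : ℤ, Z = (y + 1) * (2 * p - 1) := ⟨_, rfl⟩
    rw [← hZ] at h2
    have hZP : 2 * P ≤ Z := by rw [hZ]; linarith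
    have hZx : 4 * x ≤ Z + 2 := by rw [hZ]; linarith
    have h3 : (4 * x) * (2 * P) ≤ (Z + 2) * Z :=
      mul_le_mul hZx hZP (by linarith) (by linarith)
    have h4 : 1 * (t * p ^ 2 + t * p + t + s) ≤ q * (t * p ^ 2 + t * p + t + s) :=
      mul_le_mul_of_nonneg_right hq (by linarith)
    linarith

/-- `m = 3`, the exponent `d` equals `3`. -/
theorem D1_three {p x y q P : ℤ} (hp : 3 ≤ p) (hodd : ¬ 2 ∣ p)
    (hq : 1 ≤ q) (hy : 1 ≤ y) (hyx : 2 * y ≤ x) (hx : 2 * x ≤ q + p + y * (p - 1))
    (hx2 : 2 ∣ x) (hxodd : ∀ r : ℤ, 0 < r → r ∣ x → ¬ 2 ∣ r → r = 1)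
    (hyd : y ∣ 2 * (p + 1))
    (hP : P = 1 ∨ P = p ∨ P = p ^ 2)
    (hN : P = p ^ 2 → 8 ∣ q + p + y * (p - 1) ∨ q + p + y * (p - 1) ≤ 4)
    (h : q * (p ^ 2 + p + 1) = 1 + y + x * P) : False := by
  have hyle : y ≤ 2 * (p + 1) := Int.le_of_dvd (by linarith) hyd
  have hK : q + (p - 1) * (1 + y + x * P) = q * p ^ 3 := by
    rw [← h]; ring
  rcases hP with h1 | h1 | h1
  · subst h1
    have hy2 : y * (p + 1) ≤ 2 * (p + 1) * (p + 1) :=
      mul_le_mul_of_nonneg_right hyle (by linarith)
    have hq1 : q = 1 := by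
      have : q < 2 := by
        by_contra hc
        push Not at hc
        nlinarith
      linarith
    subst hq1
    have h3 : (2 * p - 1) * (p + 1) ≤ y * (p + 1) := by nlinarith
    have h4 : 2 * p - 1 ≤ y := le_of_mul_le_mul_right h3 (by linarith)
    obtain ⟨r, hr⟩ := hyd
    have hr0 : 0 < r := by
      by_contra hc
      push Not at hc
      nlinarith
    have hr1 : r = 1 := by
      by_contra hc
      have : 2 ≤ r := by omega
      nlinarith
    subst hr1
    have hx' : x = (p - 2) * (p + 1) := by nlinarith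
    have h5 : p - 2 = 1 := by
      refine hxodd (p - 2) (by linarith) (Dvd.intro _ hx'.symm) (by omega)
    have h6 : p = 3 := by linarith
    subst h6
    linarith
  · rw [h1] at h hK
    obtain ⟨j, hj⟩ : ∃ j : ℤ, j = (1 + y) - (q * p ^ 2 - (p - 1) * x) := ⟨_, rfl⟩
    have e1 : q = 1 + y - j * p := by
      rw [hj]
      have : q = q * p ^ 3 - (p - 1) * (1 + y + x * p) := by linarith
      linear_combination this
    have e2 : x = (1 + y) * (p + 1) - j * (p ^ 2 + p + 1) := by
      rw [e1] at h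
      have h7 : p * ((1 + y) * (p + 1) - j * (p ^ 2 + p + 1)) = p * x := by
        linear_combination h
      exact (mul_left_cancel₀ (by linarith) h7).symm
    have hj1 : 1 ≤ j := by
      by_contra hc
      push Not at hc
      have h8 : 0 ≤ (-j) * (2 * p ^ 2 + p + 2) := mul_nonneg (by linarith) (by positivity)
      have h9 : 2 * ((1 + y) * (p + 1) - j * (p ^ 2 + p + 1))
          ≤ (1 + y - j * p) + p + y * (p - 1) := by rw [← e2, ← e1]; exact hx
      have h10 : 0 ≤ y * p := by positivity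
      linarith [mul_comm y p]
    have hj2 : j ≤ 2 := by
      by_contra hc
      push Not at hc
      have h8 : 3 * p ≤ j * p := mul_le_mul_of_nonneg_right hc (by linarith)
      linarith
    interval_cases j
    · -- parity
      have h9 : x = y * (p + 1) - p ^ 2 := by rw [e2]; ring
      obtain ⟨k, hk⟩ : ∃ k, p = 2 * k + 1 := ⟨p / 2, by omega⟩
      have h10 : x = 2 * (y * (k + 1) - 2 * k ^ 2 - 2 * k) - 1 := by rw [h9, hk]; ring
      omega
    · have h8 : (1 + y) * (p + 1) ≤ (2 * p + 3) * (p + 1) :=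
        mul_le_mul_of_nonneg_right (by linarith) (by linarith)
      nlinarith
  · rw [h1] at h hK
    obtain ⟨j, hj⟩ : ∃ j : ℤ, j = q * p - (p - 1) * x := ⟨_, rfl⟩
    have e1 : q + (p - 1) * (1 + y) = p ^ 2 * j := by
      rw [hj]; linear_combination hK
    have e2 : x = j * (p ^ 2 + p + 1) - (1 + y) * p := by
      have : q = p ^ 2 * j - (p - 1) * (1 + y) := by linarith
      rw [this] at h
      have h7 : p ^ 2 * (j * (p ^ 2 + p + 1) - (1 + y) * p) = p ^ 2 * x := by
        linear_combination h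
      exact (mul_left_cancel₀ (by positivity) h7).symm
    have hj1 : 1 ≤ j := by
      by_contra hc
      push Not at hc
      have h8 : p ^ 2 * j ≤ 0 := mul_nonpos_of_nonneg_of_nonpos (by positivity) (by linarith)
      have h9 : 0 ≤ (p - 1) * (1 + y) := mul_nonneg (by linarith) (by linarith)
      linarith
    have hNN : q + p + y * (p - 1) = j * p ^ 2 + 1 := by linarith
    have hj3 : j ≤ 3 := by
      by_contra hc
      push Not at hc
      have h8 : 2 * (j * (p ^ 2 + p + 1) - (1 + y) * p) ≤ j * p ^ 2 + 1 := by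
        rw [← e2, ← hNN]; exact hx
      have h9 : (1 + y) * p ≤ (2 * p + 3) * p :=
        mul_le_mul_of_nonneg_right (by linarith) (by linarith)
      have h10 : 4 * (p ^ 2 + 2 * p + 2) ≤ j * (p ^ 2 + 2 * p + 2) :=
        mul_le_mul_of_nonneg_right (by linarith) (by positivity)
      nlinarith
    rcases hN h1 with h8 | h8
    · rw [hNN] at h8
      obtain ⟨k, hk⟩ : ∃ k, p = 2 * k + 1 := ⟨p / 2, by omega⟩
      have hkk : 2 ∣ k * (k + 1) := (Int.even_mul_succ_self k).two_dvd
      obtain ⟨l, hl⟩ := hkk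
      have hp2 : p ^ 2 = 8 * l + 1 := by rw [hk]; linear_combination 4 * hl
      rw [hp2] at h8
      interval_cases j <;> omega
    · rw [hNN] at h8
      nlinarith

end MP24a6f7
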