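import Pool.Agent.Helper664_NT.Near2

namespace MP24a6f7

open Finset

/-- lifting the exponent: a power of two dividing `1 + p + ... + p^m`, `m` odd. -/
theorem two_pow_dvd (p m c : ℕ) (hp : 3 ≤ p) (hodd : ¬ 2 ∣ p) (hm : Odd m)
    (h : 2 ^ c ∣ ∑ i ∈ range (m + 1), p ^ i) : 2 ^ (c + 1) ∣ (p + 1) * (m + 1) := by
  have : Fact (Nat.Prime 2) := ⟨Nat.prime_two⟩
  have h1 := padicValNat.pow_two_sub_one (x := p) (n := m + 1) (by omega) hodd (by omega)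
    (Odd.add_one hm)
  have hg : (p - 1) * (∑ i ∈ range (m + 1), p ^ i) = p ^ (m + 1) - 1 := by
    have := Nat.geomSum_eq (m := p) (by omega) (m + 1)
    have hd : p - 1 ∣ p ^ (m + 1) - 1 := by
      simpa using Nat.sub_dvd_pow_sub_pow p 1 (m + 1)
    rw [this, Nat.mul_div_cancel' hd]
  have hS0 : (∑ i ∈ range (m + 1), p ^ i) ≠ 0 := by
    rw [Finset.sum_range_succ']
    simp
  have hp1 : p - 1 ≠ 0 := by omega
  rw [← hg, padicValNat.mul hp1 hS0] at h1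
  have h2 : c ≤ padicValNat 2 (∑ i ∈ range (m + 1), p ^ i) :=
    (padicValNat_dvd_iff_le hS0).1 h
  rw [padicValNat_dvd_iff_le (by positivity), padicValNat.mul (by omega) (by omega)]
  omega

theorem ineq_one {p t s : ℤ} (hp : 3 ≤ p) (ht : p ≤ t) (hs : 0 ≤ s) :
    2 * 1 * (p - 1) + 2 * p - 1 < t * p ^ 2 ∧
    8 * (1 + 1) + ((1 + 1) * (2 * p - 1)) ^ 2 + 2 * ((1 + 1) * (2 * p - 1))
      < 8 * (t * p ^ 2 + t * p + t + s) := by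
  have h1 : p * p ^ 2 ≤ t * p ^ 2 := mul_le_mul_of_nonneg_right ht (by positivity)
  have h2 : p * p ≤ t * p := mul_le_mul_of_nonneg_right ht (by positivity)
  have h3 : 3 * p ^ 2 ≤ p * p ^ 2 := mul_le_mul_of_nonneg_right hp (by positivity)
  have h4 : 3 * p ≤ p * p := mul_le_mul_of_nonneg_right hp (by positivity)
  constructor <;> nlinarith

theorem ineq_five {p s y : ℤ} (hp : 3 ≤ p) (hs : 0 ≤ s) (hy : 1 ≤ y) (hy2 : y ≤ p + 1) :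
    2 * y * (p - 1) + 2 * p - 1 < p ^ 2 * p ^ 2 ∧
    8 * (1 + y) + ((y + 1) * (2 * p - 1)) ^ 2 + 2 * ((y + 1) * (2 * p - 1))
      < 8 * (p ^ 2 * p ^ 2 + p ^ 2 * p + p ^ 2 + s) := by
  have h1 : (y + 1) * (2 * p - 1) ≤ (p + 2) * (2 * p - 1) :=
    mul_le_mul_of_nonneg_right (by linarith) (by linarith)
  have h0 : 0 ≤ (y + 1) * (2 * p - 1) := mul_nonneg (by linarith) (by linarith)
  have h2 : ((y + 1) * (2 * p - 1)) ^ 2 ≤ ((p + 2) * (2 * p - 1)) ^ 2 :=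
    pow_le_pow_left₀ h0 h1 2
  have h3 : y * (p - 1) ≤ (p + 1) * (p - 1) :=
    mul_le_mul_of_nonneg_right hy2 (by linarith)
  have e2 : 9 ≤ p ^ 2 := by nlinarith
  have e3 : 3 * p ^ 2 ≤ p ^ 3 := by nlinarith
  have e4 : 3 * p ^ 3 ≤ p ^ 4 := by nlinarith [sq_nonneg p]
  constructor
  · have : p ^ 2 * p ^ 2 = p ^ 4 := by ring
    nlinarith
  · have h5 : ((p + 2) * (2 * p - 1)) ^ 2 = 4 * p ^ 4 + 12 * p ^ 3 + p ^ 2 - 12 * p + 4 := by ring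
    have h6 : 8 * (p ^ 2 * p ^ 2 + p ^ 2 * p + p ^ 2 + s) = 8 * p ^ 4 + 8 * p ^ 3 + 8 * p ^ 2 + 8 * s := by
      ring
    rw [h6]
    nlinarith

theorem ineq_seven {p s y u : ℤ} (hp : 3 ≤ p) (hs : 0 ≤ s) (hy : 1 ≤ y) (hu : 1 ≤ u)
    (hy2 : y ≤ 4 * (p + 1) * u) :
    2 * y * (p - 1) + 2 * p - 1 < (p ^ 4 * u ^ 2) * p ^ 2 ∧
    8 * (1 + y) + ((y + 1) * (2 * p - 1)) ^ 2 + 2 * ((y + 1) * (2 * p - 1))
      < 8 * ((p ^ 4 * u ^ 2) * p ^ 2 + (p ^ 4 * u ^ 2) * p + (p ^ 4 * u ^ 2) + s) := by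
  have hy3 : y + 1 ≤ (4 * p + 5) * u := by nlinarith
  have h1 : (y + 1) * (2 * p - 1) ≤ ((4 * p + 5) * u) * (2 * p - 1) :=
    mul_le_mul_of_nonneg_right hy3 (by linarith)
  have h0 : 0 ≤ (y + 1) * (2 * p - 1) := mul_nonneg (by linarith) (by linarith)
  have h2 : ((y + 1) * (2 * p - 1)) ^ 2 ≤ (((4 * p + 5) * u) * (2 * p - 1)) ^ 2 :=
    pow_le_pow_left₀ h0 h1 2
  have huu : u ≤ u ^ 2 := by nlinarith
  have hZ : ((4 * p + 5) * u) * (2 * p - 1) ≤ u ^ 2 * ((4 * p + 5) * (2 * p - 1)) := by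
    have : 0 ≤ (4 * p + 5) * (2 * p - 1) := mul_nonneg (by linarith) (by linarith)
    nlinarith
  have hY : (4 * p + 5) * u ≤ u ^ 2 * (4 * p + 5) := by nlinarith
  have e2 : 9 ≤ p ^ 2 := by nlinarith
  have e3 : 3 * p ^ 2 ≤ p ^ 3 := by nlinarith
  have e4 : 3 * p ^ 3 ≤ p ^ 4 := by nlinarith [sq_nonneg p]
  have e5 : 3 * p ^ 4 ≤ p ^ 5 := by nlinarith [pow_pos (show (0:ℤ) < p by linarith) 4]
  have e6 : 3 * p ^ 5 ≤ p ^ 6 := by nlinarith [pow_pos (show (0:ℤ) < p by linarith) 5]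
  have hu2 : 0 < u ^ 2 := by positivity
  constructor
  · have h3 : 2 * y * (p - 1) + 2 * p - 1 ≤ u ^ 2 * ((4 * p + 5) * (2 * p - 1)) := by nlinarith
    have h4 : u ^ 2 * ((4 * p + 5) * (2 * p - 1)) < u ^ 2 * p ^ 6 := by
      apply mul_lt_mul_of_pos_left _ hu2
      nlinarith
    nlinarith
  · have h5 : (((4 * p + 5) * u) * (2 * p - 1)) ^ 2
        = u ^ 2 * (64 * p ^ 4 + 96 * p ^ 3 - 44 * p ^ 2 - 60 * p + 25) := by ring
    have h6 : 8 * (1 + y) + ((y + 1) * (2 * p - 1)) ^ 2 + 2 * ((y + 1) * (2 * p - 1))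
        ≤ u ^ 2 * (64 * p ^ 4 + 96 * p ^ 3 - 28 * p ^ 2 - 16 * p + 55) := by
      nlinarith
    have h7 : u ^ 2 * (64 * p ^ 4 + 96 * p ^ 3 - 28 * p ^ 2 - 16 * p + 55)
        < u ^ 2 * (8 * p ^ 6 + 8 * p ^ 5 + 8 * p ^ 4) := by
      apply mul_lt_mul_of_pos_left _ hu2
      nlinarith
    nlinarith

end MP24a6f7
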