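import Pool.Agent.Helper664_NT.Near3

namespace MP24a6f7

open Finset

theorem odd_dvd_two_pow {a : ℕ} {r : ℤ} (hr : 0 < r) (h : r ∣ 2 ^ a) (hodd : ¬ 2 ∣ r) : r = 1 := by
  have h1 : r.natAbs ∣ 2 ^ a := by
    have := Int.natAbs_dvd_natAbs.2 h
    simpa [Int.natAbs_pow] using this
  obtain ⟨i, -, hi⟩ := (Nat.dvd_prime_pow Nat.prime_two).1 h1
  have h2 : r = 2 ^ i := by
    have : (r.natAbs : ℤ) = r := Int.natAbs_of_nonneg hr.le
    rw [← this, hi]; push_cast; rfl
  rcases Nat.eq_zero_or_pos i with h0 | h0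
  · rw [h2, h0]; norm_num
  · exfalso
    apply hodd
    rw [h2]
    exact dvd_pow_self 2 h0.ne'

theorem sum_mod_two (p : ℕ) (hodd : p % 2 = 1) (n : ℕ) : (∑ i ∈ range n, p ^ i) % 2 = n % 2 := by
  induction n with
  | zero => simp
  | succ n ih =>
    rw [sum_range_succ, Nat.add_mod, ih, Nat.pow_mod, hodd]
    simp [Nat.add_mod]

/-- trichotomy for powers `p ^ b`, `b < n + 3`. -/
theorem pow_cases (p : ℤ) (hp : 1 ≤ p) (n b : ℕ) (hb : b < n + 3) :
    p ^ b = p ^ n * p ^ 2 ∨ p ^ b = p ^ n * p ∨ (1 ≤ p ^ b ∧ p ^ b ≤ p ^ n) := by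
  by_cases h1 : b = n + 2
  · left; rw [h1, pow_add]
  by_cases h2 : b = n + 1
  · right; left; rw [h2, pow_succ]
  · right; right
    exact ⟨one_le_pow₀ hp, pow_le_pow_right₀ hp (by omega)⟩

theorem core (n : ℕ) (p : ℕ) (hp : 3 ≤ p) (hodd : p % 2 = 1) (k a c b d : ℕ)
    (hk : 1 ≤ k) (ha : a ≤ k) (hc : c ≤ k) (hb : b ≤ n + 3) (hd : d ≤ n + 3)
    (hne : c < a ∨ (c = a ∧ d < b))
    (h : 2 ^ (k + 1) * (∑ i ∈ range (n + 3), p ^ i)
      = (∑ i ∈ range (n + 3), p ^ i) + p ^ (n + 3) + 2 ^ a * p ^ b + 2 ^ c * p ^ d) :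
    n = 0 ∧ p + 1 = 2 ^ (k + 1) := by
  have hca : c ≤ a := by rcases hne with h | h <;> omega
  -- natural number facts
  have hyS : 2 ^ c ∣ ∑ i ∈ range (n + 3 + 1), p ^ i := by
    rw [sum_range_succ]
    have h1 : 2 ^ c ∣ 2 ^ (k + 1) * (∑ i ∈ range (n + 3), p ^ i) :=
      Dvd.dvd.mul_right (pow_dvd_pow 2 (by omega)) _
    rw [h] at h1
    have h2 : 2 ^ c ∣ 2 ^ c * p ^ d := Dvd.intro _ rfl
    have h3 : 2 ^ c ∣ 2 ^ a * p ^ b := Dvd.dvd.mul_right (pow_dvd_pow 2 hca) _
    exact (Nat.dvd_add_left h3).1 ((Nat.dvd_add_left h2).1 h1)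
  have hceven : (n + 3) % 2 = 0 → c = 0 := by
    intro hn
    by_contra hc0
    have h1 : 2 ∣ ∑ i ∈ range (n + 3 + 1), p ^ i :=
      (dvd_pow_self 2 hc0).trans hyS
    have h2 := sum_mod_two p hodd (n + 3 + 1)
    omega
  have hcodd : (n + 3) % 2 = 1 → 2 ^ (c + 1) ∣ (p + 1) * (n + 3 + 1) := fun hn =>
    two_pow_dvd p (n + 3) c hp (by omega) (Nat.odd_iff.2 hn) hyS
  -- integer versions
  obtain ⟨P0, hP0⟩ : ∃ P0 : ℤ, P0 = (p : ℤ) := ⟨_, rfl⟩
  have hp' : (3 : ℤ) ≤ P0 := by rw [hP0]; exact_mod_cast hp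
  have hoddz : ¬ (2 : ℤ) ∣ P0 := by rw [hP0]; omega
  obtain ⟨t, ht⟩ : ∃ t : ℤ, t = P0 ^ n := ⟨_, rfl⟩
  obtain ⟨s, hs⟩ : ∃ s : ℤ, s = ∑ i ∈ range n, P0 ^ i := ⟨_, rfl⟩
  have hst : (P0 - 1) * s = t - 1 := by
    rw [hs, ht, mul_comm, geom_sum_mul]
  have ht1 : 1 ≤ t := by rw [ht]; exact one_le_pow₀ (by linarith)
  have hs0 : 0 ≤ s := by
    by_contra hcon
    push Not at hcon
    nlinarith
  obtain ⟨x, hx⟩ : ∃ x : ℤ, x = 2 ^ a := ⟨_, rfl⟩
  obtain ⟨y, hy⟩ : ∃ y : ℤ, y = 2 ^ c := ⟨_, rfl⟩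
  obtain ⟨N, hN⟩ : ∃ N : ℤ, N = 2 ^ (k + 1) := ⟨_, rfl⟩
  have hx1 : 1 ≤ x := by rw [hx]; exact one_le_pow₀ (by norm_num)
  have hy1 : 1 ≤ y := by rw [hy]; exact one_le_pow₀ (by norm_num)
  have hyx : y ≤ x := by rw [hx, hy]; exact pow_le_pow_right₀ (by norm_num) hca
  have hxp : x ≠ P0 := by
    intro he
    rcases Nat.eq_zero_or_pos a with h0 | h0
    · rw [hx, h0] at he
      norm_num at he
      linarith
    · apply hoddz
      rw [← he, hx]
      exact dvd_pow_self 2 h0.ne'
  have hNeven : (2 : ℤ) ∣ N := by rw [hN]; exact dvd_pow_self 2 (by omega)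
  obtain ⟨A, hA⟩ : ∃ A : ℤ, N = x * A ∧ 2 ∣ A := by
    refine ⟨2 ^ (k + 1 - a), ?_, dvd_pow_self 2 (by omega)⟩
    rw [hN, hx, ← pow_add]
    congr 1
    omega
  have hS : (∑ i ∈ range (n + 3), P0 ^ i) = t * P0 ^ 2 + t * P0 + t + s := by
    rw [sum_range_succ, sum_range_succ, sum_range_succ, hs, ht]
    ring
  have hE : N * (t * P0 ^ 2 + t * P0 + t + s)
      = (t * P0 ^ 2 + t * P0 + t + s) + t * P0 ^ 3 + x * P0 ^ b + y * P0 ^ d := by
    have h' : ((2 ^ (k + 1) * (∑ i ∈ range (n + 3), p ^ i) : ℕ) : ℤ)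
      = (((∑ i ∈ range (n + 3), p ^ i) + p ^ (n + 3) + 2 ^ a * p ^ b + 2 ^ c * p ^ d : ℕ) : ℤ) := by
      rw [h]
    push_cast at h'
    rw [← hP0, hS, ← hN, ← hx, ← hy] at h'
    rw [h', ht]
    ring
  -- `(p - 1) S = p^m - 1`
  have hG : (P0 - 1) * (t * P0 ^ 2 + t * P0 + t + s) = t * P0 ^ 3 - 1 := by
    linear_combination hst
  have hSpos : 0 < t * P0 ^ 2 + t * P0 + t + s := by positivity
  -- the two reduced exponents
  obtain ⟨P, β, hPβ, hPval⟩ : ∃ P β : ℤ, (x * P0 ^ b = x * P + β * (t * P0 ^ 2 + t * P0 + t + s)) ∧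
      ((b = n + 3 ∧ P = 1 ∧ β = x * (P0 - 1)) ∨ (b < n + 3 ∧ P = P0 ^ b ∧ β = 0)) := by
    rcases eq_or_lt_of_le hb with hb' | hb'
    · refine ⟨1, x * (P0 - 1), ?_, Or.inl ⟨hb', rfl, rfl⟩⟩
      rw [hb', pow_add, ← ht]
      linear_combination (-x) * hG
    · exact ⟨P0 ^ b, 0, by ring, Or.inr ⟨hb', rfl, rfl⟩⟩
  have hPpos : 1 ≤ P := by
    rcases hPval with ⟨-, h1, -⟩ | ⟨-, h1, -⟩
    · rw [h1]
    · rw [h1]; exact one_le_pow₀ (by linarith)
  have hAβ : ∃ B : ℤ, N - β = x * B ∧ 2 ∣ B := by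
    rcases hPval with ⟨-, -, h1⟩ | ⟨-, -, h1⟩
    · refine ⟨A - (P0 - 1), ?_, ?_⟩
      · rw [h1, hA.1]; ring
      · have := hA.2
        omega
    · refine ⟨A, ?_, hA.2⟩
      rw [h1, hA.1]; ring
  obtain ⟨B, hB, hB2⟩ := hAβ
  rcases eq_or_lt_of_le hd with hd' | hd'
  · -- `d = m`
    exfalso
    have hca' : c < a := by
      rcases hne with h | h
      · exact h
      · omega
    have h2yx : 2 * y ≤ x := by
      rw [hx, hy, ← pow_succ']
      exact pow_le_pow_right₀ (by norm_num) hca'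
    obtain ⟨q, hq⟩ : ∃ q : ℤ, q = N - P0 - β - y * (P0 - 1) := ⟨_, rfl⟩
    have hq' : q * (t * P0 ^ 2 + t * P0 + t + s) = 1 + y + x * P := by
      rw [hq]
      rw [hd', pow_add, ← ht, hPβ] at hE
      linear_combination hE - (1 + y) * hG
    have hq1 : 1 ≤ q := by
      by_contra hcon
      push Not at hcon
      have h0 : q * (t * P0 ^ 2 + t * P0 + t + s) ≤ 0 :=
        mul_nonpos_of_nonpos_of_nonneg (by linarith) hSpos.le
      have h1 : 0 < x * P := mul_pos (by linarith) (by linarith)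
      linarith
    have hxB : q + P0 + y * (P0 - 1) = x * B := by rw [← hB, hq]; ring
    have hB1 : 2 ≤ B := by
      have h1 : 0 < x * B := by
        rw [← hxB]
        have : 0 ≤ y * (P0 - 1) := mul_nonneg (by linarith) (by linarith)
        linarith
      have h2 : 0 < B := (pos_iff_pos_of_mul_pos h1).1 (by linarith)
      omega
    have hx2q : 2 * x ≤ q + P0 + y * (P0 - 1) := by
      have := mul_le_mul_of_nonneg_left hB1 (show 0 ≤ x by linarith)
      linarith
    have hPd : P ∣ t * P0 ^ 3 := by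
      rcases hPval with ⟨-, h1, -⟩ | ⟨h0, h1, -⟩
      · rw [h1]; exact one_dvd _
      · rw [h1, ht, ← pow_add]; exact pow_dvd_pow _ (by omega)
    have hPd' : P ∣ q + (P0 - 1) * (1 + y) := by
      have : q + (P0 - 1) * (1 + y) = q * (t * P0 ^ 3) - (P0 - 1) * (x * P) := by
        linear_combination q * hG - (P0 - 1) * hq'
      rw [this]
      exact dvd_sub (Dvd.dvd.mul_left hPd _) (Dvd.intro_left ((P0 - 1) * x) (by ring))
    rcases Nat.eq_zero_or_pos n with hn0 | hn0
    · -- `m = 3`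
      subst hn0
      have ht' : t = 1 := by rw [ht]; simp
      have hs' : s = 0 := by rw [hs]; simp
      rw [ht', hs'] at hq'
      have hdiv := hcodd (by norm_num)
      refine D1_three (P := P) hp' hoddz hq1 hy1 h2yx hx2q ?_ ?_ ?_ ?_ ?_ (by linarith)
      · rw [hx]; exact dvd_pow_self 2 (by omega)
      · intro r hr hrx hr2
        exact odd_dvd_two_pow hr (hx ▸ hrx) hr2
      · rw [hy, hP0]
        have h1 : 2 ^ c ∣ 2 * (p + 1) := by
          have h2 : 2 ^ c * 2 ∣ (2 * (p + 1)) * 2 := by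
            rw [← pow_succ]; convert hdiv using 1; ring
          exact Nat.dvd_of_mul_dvd_mul_right (by norm_num) h2
        exact_mod_cast h1
      · rcases hPval with ⟨-, h1, -⟩ | ⟨h0, h1, -⟩
        · exact Or.inl h1
        · have : b = 0 ∨ b = 1 ∨ b = 2 := by omega
          rcases this with h2 | h2 | h2 <;> rw [h2] at h1
          · left; simpa using h1
          · right; left; simpa using h1
          · right; right; exact h1
      · intro hP2
        have hβ : β = 0 := by
          rcases hPval with ⟨-, h1, -⟩ | ⟨-, -, h1⟩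
          · exfalso
            rw [h1] at hP2
            have : (3 : ℤ) ^ 2 ≤ P0 ^ 2 := pow_le_pow_left₀ (by norm_num) hp' 2
            linarith
          · exact h1
        have hqN : q + P0 + y * (P0 - 1) = N := by rw [hq, hβ]; ring
        rw [hqN, hN]
        by_cases hk2 : 2 ≤ k
        · left
          have : (8 : ℤ) = 2 ^ 3 := by norm_num
          rw [this]
          exact pow_dvd_pow 2 (by omega)
        · right
          have : k = 1 := by omega
          rw [this]; norm_num
    · -- `m ≥ 4`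
      have htp : P0 ≤ t := by
        rw [ht]
        calc P0 = P0 ^ 1 := (pow_one _).symm
          _ ≤ P0 ^ n := pow_le_pow_right₀ (by linarith) hn0
      have hPc : P = t * P0 ^ 2 ∨ (1 ≤ P ∧ P ≤ t * P0) := by
        have htt : t * 3 ≤ t * P0 := mul_le_mul_of_nonneg_left hp' (by linarith)
        rcases hPval with ⟨-, h1, -⟩ | ⟨h0, h1, -⟩
        · right; rw [h1]; constructor
          · rfl
          · linarith
        · rcases pow_cases P0 (by linarith) n b h0 with h2 | h2 | h2
          · left; rw [h1, h2, ht]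
          · right; rw [h1, h2, ← ht]; constructor <;> linarith
          · right; rw [h1]; rw [← ht] at h2; exact ⟨h2.1, by linarith [h2.2]⟩
      have hineq : 2 * y * (P0 - 1) + 2 * P0 - 1 < t * P0 ^ 2 ∧
          8 * (1 + y) + ((y + 1) * (2 * P0 - 1)) ^ 2 + 2 * ((y + 1) * (2 * P0 - 1))
            < 8 * (t * P0 ^ 2 + t * P0 + t + s) := by
        by_cases hpar : (n + 3) % 2 = 0
        · have hc0 := hceven hpar
          have hy1' : y = 1 := by rw [hy, hc0]; norm_num
          rw [hy1']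
          exact ineq_one hp' htp hs0
        · have hdiv := hcodd (by omega)
          by_cases hn2 : n = 2
          · subst hn2
            have hle : 2 ^ c ≤ p + 1 := by
              have h1 : 2 ^ c ∣ 3 * (p + 1) := by
                have h2 : 2 ^ c * 2 ∣ (3 * (p + 1)) * 2 := by
                  rw [← pow_succ]; convert hdiv using 1; ring
                exact Nat.dvd_of_mul_dvd_mul_right (by norm_num) h2
              have h3 : Nat.Coprime (2 ^ c) 3 := Nat.Coprime.pow_left c (by norm_num)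
              exact Nat.le_of_dvd (by omega) (h3.dvd_of_dvd_mul_left h1)
            have hle' : y ≤ P0 + 1 := by rw [hy, hP0]; exact_mod_cast hle
            rw [ht]
            exact ineq_five hp' hs0 hy1 hle'
          · -- `n = 4 + 2 j`
            obtain ⟨j, hj⟩ : ∃ j, n = 4 + 2 * j := ⟨(n - 4) / 2, by omega⟩
            have hle : 2 ^ c ≤ (p + 1) * (4 + j) := by
              have h1 : 2 ^ c * 2 ∣ ((p + 1) * (4 + j)) * 2 := by
                rw [← pow_succ]; convert hdiv using 1; rw [hj]; ring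
              exact Nat.le_of_dvd (by positivity) (Nat.dvd_of_mul_dvd_mul_right (by norm_num) h1)
            have hj' : ∀ j : ℕ, 4 + j ≤ 4 * p ^ j := by
              intro j
              induction j with
              | zero => simp
              | succ j ih =>
                have : 4 * p ^ (j + 1) = (4 * p ^ j) * p := by ring
                rw [this]
                have h5 : (4 * p ^ j) * 3 ≤ (4 * p ^ j) * p := Nat.mul_le_mul_left _ hp
                have h6 : 0 < p ^ j := by positivity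
                omega
            have hle2 : 2 ^ c ≤ 4 * (p + 1) * p ^ j := by
              calc 2 ^ c ≤ (p + 1) * (4 + j) := hle
                _ ≤ (p + 1) * (4 * p ^ j) := Nat.mul_le_mul_left _ (hj' j)
                _ = 4 * (p + 1) * p ^ j := by ring
            have hle' : y ≤ 4 * (P0 + 1) * P0 ^ j := by rw [hy, hP0]; exact_mod_cast hle2
            have ht4 : t = P0 ^ 4 * (P0 ^ j) ^ 2 := by rw [ht, hj]; ring
            rw [ht4]
            exact ineq_seven hp' hs0 hy1 (one_le_pow₀ (by linarith)) hle'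
      exact D1_ge4 hp' htp hs0 hq1 hy1 hx1 hx2q hPc hPd' hineq.1 hineq.2 hq'
  · -- `d < m`
    obtain ⟨q, hq⟩ : ∃ q : ℤ, q = N - P0 - β := ⟨_, rfl⟩
    have hq' : q * (t * P0 ^ 2 + t * P0 + t + s) = 1 + x * P + y * P0 ^ d := by
      rw [hq]
      rw [hPβ] at hE
      linear_combination hE - hG
    have hRpos : 1 ≤ P0 ^ d := one_le_pow₀ (by linarith)
    have hq1 : 1 ≤ q := by
      by_contra hcon
      push Not at hcon
      have : q * (t * P0 ^ 2 + t * P0 + t + s) ≤ 0 :=
        mul_nonpos_of_nonpos_of_nonneg (by linarith) hSpos.le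
      have h1 : 0 < x * P := mul_pos (by linarith) (by linarith)
      have h2 : 0 < y * P0 ^ d := mul_pos (by linarith) (by linarith)
      linarith
    have hxB : q + P0 = x * B := by rw [← hB, hq]; ring
    have hB1 : 2 ≤ B := by
      have h1 : 0 < x * B := by rw [← hxB]; linarith
      have h2 : 0 < B := (pos_iff_pos_of_mul_pos h1).1 (by linarith)
      omega
    have hx2q : 2 * x ≤ q + P0 := by
      have := mul_le_mul_of_nonneg_left hB1 (show 0 ≤ x by linarith)
      linarith
    rcases Nat.eq_zero_or_pos n with hn0 | hn0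
    · subst hn0
      have ht' : t = 1 := by rw [ht]; simp
      have hs' : s = 0 := by rw [hs]; simp
      rw [ht', hs'] at hq'
      have h3cases : ∀ e : ℕ, e < 0 + 3 → P0 ^ e = 1 ∨ P0 ^ e = P0 ∨ P0 ^ e = P0 ^ 2 := by
        intro e he
        have : e = 0 ∨ e = 1 ∨ e = 2 := by omega
        rcases this with h2 | h2 | h2 <;> rw [h2]
        · left; simp
        · right; left; simp
        · right; right; rfl
      have hfin := D0_three (P := P) (R := P0 ^ d) hp' hoddz hq1 hy1 hyx hx2q ?_ (h3cases d hd') ?_ ?_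
        (by linarith)
      · obtain ⟨hq2, hP1⟩ := hfin
        refine ⟨rfl, ?_⟩
        have hβ : β = 0 := by
          rcases hPval with ⟨-, h1, -⟩ | ⟨-, -, h1⟩
          · exact absurd h1 hP1
          · exact h1
        have : N = P0 + 1 := by linarith
        rw [hN, hP0] at this
        exact_mod_cast this.symm
      · rcases hPval with ⟨-, h1, -⟩ | ⟨h0, h1, -⟩
        · exact Or.inl h1
        · rw [h1]; exact h3cases b h0
      · rcases hne with h0 | ⟨h0, h1⟩
        · left
          rw [hx, hy, ← pow_succ']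
          exact pow_le_pow_right₀ (by norm_num) h0
        · right
          refine ⟨by rw [hx, hy, h0], hxp, ?_⟩
          rcases hPval with ⟨-, h2, -⟩ | ⟨h2, h3, -⟩
          · exact Or.inr h2
          · left
            rw [h3]
            exact (pow_lt_pow_right₀ (by linarith) h1).ne'
      · intro hP1
        have hβ : β = 0 := by
          rcases hPval with ⟨-, h1, -⟩ | ⟨-, -, h1⟩
          · exact absurd h1 hP1
          · exact h1
        have : q + P0 = N := by linarith
        rw [this]; exact hNeven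
    · exfalso
      have htp : P0 ≤ t := by
        rw [ht]
        calc P0 = P0 ^ 1 := (pow_one _).symm
          _ ≤ P0 ^ n := pow_le_pow_right₀ (by linarith) hn0
      have hs1 : 1 ≤ s := by
        by_contra hcon
        have h0 : s = 0 := by omega
        rw [h0] at hst
        linarith
      have hR := pow_cases P0 (by linarith) n d hd'
      rw [← ht] at hR
      refine D0_ge4 hp' htp hs1 hst hq1 hy1 hyx hx2q ?_ hR ?_ ?_ hq'
      · rcases hPval with ⟨-, h1, -⟩ | ⟨h0, h1, -⟩
        · right; right; rw [h1]; exact ⟨le_rfl, ht1⟩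
        · rw [h1, ht]; exact pow_cases P0 (by linarith) n b h0
      · rcases hne with h0 | ⟨h0, h1⟩
        · left
          rw [hx, hy, ← pow_succ']
          exact pow_le_pow_right₀ (by norm_num) h0
        · right
          refine ⟨by rw [hx, hy, h0], hxp, ?_⟩
          rcases hPval with ⟨-, h2, -⟩ | ⟨h2, h3, -⟩
          · rw [h2]
            have h4 : P0 ^ d ≤ t * P0 ^ 2 := by
              rw [ht, ← pow_add]; exact pow_le_pow_right₀ (by linarith) (by omega)
            have h5 : t * 3 ≤ t * P0 := mul_le_mul_of_nonneg_left hp' (by linarith)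
            linarith
          · rw [h3]
            have h4 : P0 ^ b ≤ t * P0 ^ 2 := by
              rw [ht, ← pow_add]; exact pow_le_pow_right₀ (by linarith) (by omega)
            have h5 : P0 ^ d ≤ t * P0 := by
              rw [ht, ← pow_succ]; exact pow_le_pow_right₀ (by linarith) (by omega)
            linarith
      · by_cases hn2 : 2 ≤ n
        · left; rw [ht]; exact pow_le_pow_right₀ (by linarith) hn2
        · right
          have : n = 1 := by omega
          have hc0 := hceven (by omega)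
          rw [hy, hc0]; norm_num

end MP24a6f7
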